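import Mathlib
import Pool.Agent.helper1.SF.SpecA

set_option autoImplicit false

namespace SF

open Pool.Agent.helper72.Sq MeasureTheory Set

theorem USM_log {A B s : ℝ} (hs : 0 < s) (hA : s ≤ A) (hB : s ≤ B) :
    |Real.log A - Real.log B| ≤ |A - B| / s := by
  have key : ∀ A B : ℝ, s ≤ A → s ≤ B → B ≤ A → Real.log A - Real.log B ≤ (A - B) / s := by
    intro A B hA hB hBA
    have hB0 : 0 < B := lt_of_lt_of_le hs hB
    have hA0 : 0 < A := lt_of_lt_of_le hs hA
    rw [← Real.log_div hA0.ne' hB0.ne']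
    have h1 := Real.log_le_sub_one_of_pos (div_pos hA0 hB0)
    have h2 : A / B - 1 = (A - B) / B := by field_simp
    have h3 : (A - B) / B ≤ (A - B) / s :=
      div_le_div_of_nonneg_left (by linarith) hs hB
    linarith
  rcases le_total B A with h | h
  · rw [abs_of_nonneg (by linarith [Real.log_le_log (lt_of_lt_of_le hs hB) h]),
      abs_of_nonneg (by linarith)]
    exact key A B hA hB h
  · rw [abs_of_nonpos (by linarith [Real.log_le_log (lt_of_lt_of_le hs hA) h]),
      abs_of_nonpos (by linarith)]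
    have := key B A hB hA h
    rw [neg_sub, neg_sub]
    exact this

theorem USM_sqrt {a b r : ℝ} (hr : 0 < r) (ha : r ^ 2 ≤ a) (hb : r ^ 2 ≤ b) :
    |√a - √b| ≤ |a - b| / (2 * r) := by
  have ha0 : 0 ≤ a := le_trans (by positivity) ha
  have hb0 : 0 ≤ b := le_trans (by positivity) hb
  have h1 : r ≤ √a := Real.le_sqrt_of_sq_le ha
  have h2 : r ≤ √b := Real.le_sqrt_of_sq_le hb
  have h3 : a - b = (√a - √b) * (√a + √b) := by
    have e1 := Real.sq_sqrt ha0
    have e2 := Real.sq_sqrt hb0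
    nlinarith
  rw [le_div_iff₀ (by positivity)]
  conv_rhs => rw [h3, abs_mul]
  apply mul_le_mul_of_nonneg_left _ (abs_nonneg _)
  rw [abs_of_nonneg (by linarith)]
  linarith

theorem USM_sqrt2 (a b : ℝ) : |√a - √b| ≤ √|a - b| := by
  have key : ∀ a b : ℝ, b ≤ a → √a - √b ≤ √|a - b| := by
    intro a b h
    rw [abs_of_nonneg (by linarith)]
    have h1 : √a ≤ √b + √(a - b) := by
      rw [Real.sqrt_le_iff]
      refine ⟨by positivity, ?_⟩
      have e1 := Real.sq_sqrt (show 0 ≤ a - b by linarith)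
      have e2 : b ≤ √b ^ 2 := by
        rcases le_total 0 b with hb | hb
        · rw [Real.sq_sqrt hb]
        · exact le_trans hb (by positivity)
      have e3 : 0 ≤ √b * √(a - b) := by positivity
      nlinarith
    linarith
  rcases le_total b a with h | h
  · rw [abs_of_nonneg (by linarith [Real.sqrt_le_sqrt h])]
    exact key a b h
  · rw [abs_of_nonpos (by linarith [Real.sqrt_le_sqrt h]), abs_sub_comm a b]
    have := key b a h
    linarith

/-- abstract form of `LA` -/
noncomputable def USM_G (W e e' x n : ℝ) : ℝ :=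
  Real.log (√(max (W + e * x) (n - e' * x)) + √(W + (e + e') * x - n))

theorem USM_r1 {q W D2 e e' x1 x2 n : ℝ} (hq : 1 ≤ q) (hW : W = q ^ 4) (he : 0 ≤ e) (he' : 0 ≤ e')
    (hee : e + e' ≤ 2) (h1 : 0 ≤ x1) (h2 : 0 ≤ x2) (hD : |x1 - x2| ≤ D2)
    (hn : n ≤ q ^ 4 - q ^ 2) :
    |USM_G W e e' x1 n - USM_G W e e' x2 n| ≤ 2 * D2 / q ^ 3 := by
  have hq0 : 0 < q := by linarith
  have hD0 : 0 ≤ D2 := le_trans (abs_nonneg _) hD
  have hmax : ∀ x : ℝ, 0 ≤ x → max (W + e * x) (n - e' * x) = W + e * x := by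
    intro x hx
    apply max_eq_left
    have a1 : 0 ≤ e * x := by positivity
    have a2 : 0 ≤ e' * x := by positivity
    have a3 : 0 ≤ q ^ 2 := by positivity
    linarith
  unfold USM_G
  rw [hmax x1 h1, hmax x2 h2]
  have a1 : ∀ x : ℝ, 0 ≤ x → (q ^ 2) ^ 2 ≤ W + e * x := by
    intro x hx
    have a1 : 0 ≤ e * x := by positivity
    nlinarith
  have a2 : ∀ x : ℝ, 0 ≤ x → q ^ 2 ≤ W + (e + e') * x - n := by
    intro x hx
    have a1 : 0 ≤ (e + e') * x := by positivity
    linarith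
  have b1 := USM_sqrt (r := q ^ 2) (by positivity) (a1 x1 h1) (a1 x2 h2)
  have b2 := USM_sqrt (r := q) hq0 (a2 x1 h1) (a2 x2 h2)
  have c1 : |W + e * x1 - (W + e * x2)| ≤ 2 * D2 := by
    have : W + e * x1 - (W + e * x2) = e * (x1 - x2) := by ring
    rw [this, abs_mul, abs_of_nonneg he]
    exact mul_le_mul (by linarith) hD (abs_nonneg _) (by norm_num)
  have c2 : |W + (e + e') * x1 - n - (W + (e + e') * x2 - n)| ≤ 2 * D2 := by
    have : W + (e + e') * x1 - n - (W + (e + e') * x2 - n) = (e + e') * (x1 - x2) := by ring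
    rw [this, abs_mul, abs_of_nonneg (by linarith)]
    exact mul_le_mul (by linarith) hD (abs_nonneg _) (by norm_num)
  have d1 : |√(W + e * x1) - √(W + e * x2)| ≤ D2 / q := by
    refine b1.trans ?_
    rw [div_le_div_iff₀ (by positivity) hq0]
    have : D2 * (2 * q ^ 2) = 2 * D2 * q * q := by ring
    rw [this]
    have h5 : 2 * D2 * q ≤ 2 * D2 * q * q := by
      have : 0 ≤ 2 * D2 * q := by positivity
      nlinarith
    refine le_trans ?_ h5
    exact mul_le_mul_of_nonneg_right c1 hq0.le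
  have d2 : |√(W + (e + e') * x1 - n) - √(W + (e + e') * x2 - n)| ≤ D2 / q := by
    refine b2.trans ?_
    rw [div_le_div_iff₀ (by positivity) hq0]
    have : D2 * (2 * q) = 2 * D2 * q := by ring
    rw [this]
    exact mul_le_mul_of_nonneg_right c2 hq0.le
  have s1 : ∀ x : ℝ, 0 ≤ x → q ^ 2 ≤ √(W + e * x) + √(W + (e + e') * x - n) := by
    intro x hx
    have := Real.le_sqrt_of_sq_le (a1 x hx)
    have h0 := Real.sqrt_nonneg (W + (e + e') * x - n)
    linarith
  refine (USM_log (s := q ^ 2) (by positivity) (s1 x1 h1) (s1 x2 h2)).trans ?_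
  rw [div_le_div_iff₀ (by positivity) (by positivity)]
  have e1 : |√(W + e * x1) + √(W + (e + e') * x1 - n) - (√(W + e * x2) + √(W + (e + e') * x2 - n))|
      ≤ 2 * D2 / q := by
    have : √(W + e * x1) + √(W + (e + e') * x1 - n) - (√(W + e * x2) + √(W + (e + e') * x2 - n)) =
        (√(W + e * x1) - √(W + e * x2)) +
          (√(W + (e + e') * x1 - n) - √(W + (e + e') * x2 - n)) := by ring
    rw [this]
    refine (abs_add_le _ _).trans ?_
    have : 2 * D2 / q = D2 / q + D2 / q := by ring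
    rw [this]
    exact add_le_add d1 d2
  have e2 : 2 * D2 * q ^ 2 = 2 * D2 / q * q ^ 3 := by field_simp
  rw [e2]
  exact mul_le_mul_of_nonneg_right e1 (by positivity)

theorem USM_r2 {q W D e e' x1 x2 n : ℝ} (hq : 1 ≤ q) (hW : W = q ^ 4) (he : 0 ≤ e) (he' : 0 ≤ e')
    (hee : e + e' ≤ 2) (h1 : 0 ≤ x1) (h2 : 0 ≤ x2) (hD : |x1 - x2| ≤ D ^ 2) (hD1 : 1 ≤ D)
    (hDq : D ^ 2 ≤ q) :
    |USM_G W e e' x1 n - USM_G W e e' x2 n| ≤ 3 * D / q ^ 2 := by
  have hq0 : 0 < q := by linarith
  have a1 : ∀ x : ℝ, 0 ≤ x → (q ^ 2) ^ 2 ≤ max (W + e * x) (n - e' * x) := by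
    intro x hx
    have a1 : 0 ≤ e * x := by positivity
    refine le_trans ?_ (le_max_left _ _)
    nlinarith
  unfold USM_G
  have b1 := USM_sqrt (r := q ^ 2) (by positivity) (a1 x1 h1) (a1 x2 h2)
  have b2 := USM_sqrt2 (W + (e + e') * x1 - n) (W + (e + e') * x2 - n)
  have c1 : |max (W + e * x1) (n - e' * x1) - max (W + e * x2) (n - e' * x2)| ≤ 2 * D ^ 2 := by
    refine (abs_max_sub_max_le_max _ _ _ _).trans (max_le ?_ ?_)
    · have : W + e * x1 - (W + e * x2) = e * (x1 - x2) := by ring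
      rw [this, abs_mul, abs_of_nonneg he]
      exact mul_le_mul (by linarith) hD (abs_nonneg _) (by norm_num)
    · have : n - e' * x1 - (n - e' * x2) = -(e' * (x1 - x2)) := by ring
      rw [this, abs_neg, abs_mul, abs_of_nonneg he']
      exact mul_le_mul (by linarith) hD (abs_nonneg _) (by norm_num)
  have c2 : |W + (e + e') * x1 - n - (W + (e + e') * x2 - n)| ≤ 2 * D ^ 2 := by
    have : W + (e + e') * x1 - n - (W + (e + e') * x2 - n) = (e + e') * (x1 - x2) := by ring
    rw [this, abs_mul, abs_of_nonneg (by linarith)]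
    exact mul_le_mul (by linarith) hD (abs_nonneg _) (by norm_num)
  have d1 : |√(max (W + e * x1) (n - e' * x1)) - √(max (W + e * x2) (n - e' * x2))| ≤ D := by
    refine b1.trans ?_
    rw [div_le_iff₀ (by positivity)]
    refine c1.trans ?_
    have h5 : D ^ 2 ≤ q ^ 2 := by nlinarith
    nlinarith
  have d2 : |√(W + (e + e') * x1 - n) - √(W + (e + e') * x2 - n)| ≤ 2 * D := by
    refine b2.trans ?_
    rw [Real.sqrt_le_iff]
    refine ⟨by linarith, c2.trans ?_⟩
    nlinarith
  have s1 : ∀ x : ℝ, 0 ≤ x →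
      q ^ 2 ≤ √(max (W + e * x) (n - e' * x)) + √(W + (e + e') * x - n) := by
    intro x hx
    have := Real.le_sqrt_of_sq_le (a1 x hx)
    have h0 := Real.sqrt_nonneg (W + (e + e') * x - n)
    linarith
  refine (USM_log (s := q ^ 2) (by positivity) (s1 x1 h1) (s1 x2 h2)).trans ?_
  apply div_le_div_of_nonneg_right _ (by positivity)
  have : √(max (W + e * x1) (n - e' * x1)) + √(W + (e + e') * x1 - n) -
      (√(max (W + e * x2) (n - e' * x2)) + √(W + (e + e') * x2 - n)) =
      (√(max (W + e * x1) (n - e' * x1)) - √(max (W + e * x2) (n - e' * x2))) +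
        (√(W + (e + e') * x1 - n) - √(W + (e + e') * x2 - n)) := by ring
  rw [this]
  refine (abs_add_le _ _).trans ?_
  linarith

theorem USM_r3 {q W D2 e e' x1 x2 n : ℝ} (hq : 1 ≤ q) (hW : W = q ^ 4) (he : 0 ≤ e) (he' : 0 ≤ e')
    (he1 : e' ≤ 1) (hee : e + e' ≤ 2) (h1 : 0 ≤ x1) (h2 : 0 ≤ x2) (h3 : x1 ≤ q) (h4 : x2 ≤ q)
    (hD : |x1 - x2| ≤ D2) (hn : q ^ 4 + 2 * q ≤ n) :
    |USM_G W e e' x1 n - USM_G W e e' x2 n| ≤ D2 / n := by
  have hq0 : 0 < q := by linarith
  have hn0 : 0 < n := lt_of_lt_of_le (by positivity) hn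
  have hkey : ∀ x : ℝ, 0 ≤ x → x ≤ q →
      USM_G W e e' x n = 1 / 2 * Real.log (n - e' * x) ∧ n / 2 ≤ n - e' * x := by
    intro x hx hxq
    have a1 : (e + e') * x ≤ 2 * q := mul_le_mul hee hxq hx (by norm_num)
    have a2 : e' * x ≤ q := by
      calc e' * x ≤ 1 * q := mul_le_mul he1 hxq hx (by norm_num)
        _ = q := one_mul q
    have a3 : n / 2 ≤ n - e' * x := by
      have : 0 < q ^ 4 := by positivity
      linarith
    refine ⟨?_, a3⟩
    unfold USM_G
    rw [Real.sqrt_eq_zero_of_nonpos (x := W + (e + e') * x - n) (by linarith), add_zero,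
      max_eq_right (by linarith), Real.log_sqrt (by linarith)]
    ring
  obtain ⟨k1, k1'⟩ := hkey x1 h1 h3
  obtain ⟨k2, k2'⟩ := hkey x2 h2 h4
  rw [k1, k2, ← mul_sub, abs_mul, abs_of_pos (by norm_num : (0 : ℝ) < 1 / 2)]
  have := USM_log (s := n / 2) (by linarith) k1' k2'
  have c : |n - e' * x1 - (n - e' * x2)| ≤ D2 := by
    have : n - e' * x1 - (n - e' * x2) = -(e' * (x1 - x2)) := by ring
    rw [this, abs_neg, abs_mul, abs_of_nonneg he']
    calc e' * |x1 - x2| ≤ 1 * |x1 - x2| := mul_le_mul_of_nonneg_right he1 (abs_nonneg _)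
      _ ≤ D2 := by rw [one_mul]; exact hD
  have d : |n - e' * x1 - (n - e' * x2)| / (n / 2) ≤ D2 / (n / 2) :=
    div_le_div_of_nonneg_right c (by linarith)
  have e : D2 / (n / 2) = 2 * (D2 / n) := by field_simp
  linarith

/-- the sum over natural numbers -/
theorem USM_nat {q D : ℝ} (hq : 1 ≤ q) (hD : 1 ≤ D) (f : ℕ → ℝ) (h0 : ∀ m, 0 ≤ f m)
    (h1 : ∀ m : ℕ, (m : ℝ) ≤ 5 * (q ^ 2 - q) → f m ≤ 2 * D ^ 2 / q ^ 3)
    (h2 : ∀ m : ℕ, f m ≤ 3 * D / q ^ 2)
    (h3 : ∀ m : ℕ, 5 * (q ^ 2 + q) ≤ (m : ℝ) → f m ≤ D ^ 2 / ((m : ℝ) ^ 2 / 25)) :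
    Summable f ∧ ∑' m, f m ≤ 100 * D ^ 2 / q := by
  have hq0 : 0 < q := by linarith
  have hq2 : q ≤ q ^ 2 := by nlinarith
  have hD2 : D ≤ D ^ 2 := by nlinarith
  have key : ∀ N : ℕ, ∑ m ∈ Finset.range N, f m ≤ 100 * D ^ 2 / q := by
    intro N
    set K : ℕ := ⌊5 * q ^ 2⌋₊ with hK
    have hK1 : (K : ℝ) ≤ 5 * q ^ 2 := Nat.floor_le (by positivity)
    have hK2 : 5 * q ^ 2 < K + 1 := Nat.lt_floor_add_one _
    set a : ℕ := ⌈5 * (q ^ 2 - q)⌉₊ with ha
    set b : ℕ := ⌊5 * (q ^ 2 + q)⌋₊ with hb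
    have hb1 : (b : ℝ) ≤ 5 * (q ^ 2 + q) := Nat.floor_le (by positivity)
    have ha1 : 5 * (q ^ 2 - q) ≤ a := Nat.le_ceil _
    have hle : ∀ m ∈ Finset.range N, f m ≤ (if m ∈ Finset.range (K + 1) then 2 * D ^ 2 / q ^ 3 else 0) +
        (if m ∈ Finset.Icc a b then 3 * D / q ^ 2 else 0) +
        (if m ∈ Finset.Ioc K (N + K) then 25 * D ^ 2 * ((m : ℝ) ^ 2)⁻¹ else 0) := by
      intro m hm
      have g1 : 0 ≤ (if m ∈ Finset.range (K + 1) then 2 * D ^ 2 / q ^ 3 else 0) := by
        split_ifs <;> positivity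
      have g2 : 0 ≤ (if m ∈ Finset.Icc a b then 3 * D / q ^ 2 else 0) := by
        split_ifs <;> positivity
      have g3 : 0 ≤ (if m ∈ Finset.Ioc K (N + K) then 25 * D ^ 2 * ((m : ℝ) ^ 2)⁻¹ else 0) := by
        split_ifs <;> positivity
      rcases le_or_gt (m : ℝ) (5 * (q ^ 2 - q)) with c1 | c1
      · have hmem : m ∈ Finset.range (K + 1) := by
          rw [Finset.mem_range, Nat.lt_succ_iff]
          apply Nat.le_floor
          linarith
        have := h1 m c1
        rw [if_pos hmem]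
        linarith
      · rcases lt_or_ge (m : ℝ) (5 * (q ^ 2 + q)) with c2 | c2
        · have hmem : m ∈ Finset.Icc a b := by
            rw [Finset.mem_Icc]
            exact ⟨Nat.ceil_le.mpr c1.le, Nat.le_floor c2.le⟩
          have := h2 m
          rw [if_pos hmem]
          linarith
        · have hKm : K < m := by
            have : (K : ℝ) < m := by linarith
            exact_mod_cast this
          have hmem : m ∈ Finset.Ioc K (N + K) := by
            rw [Finset.mem_Ioc]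
            exact ⟨hKm, by have := Finset.mem_range.mp hm; omega⟩
          have h := h3 m c2
          rw [if_pos hmem]
          have e : D ^ 2 / ((m : ℝ) ^ 2 / 25) = 25 * D ^ 2 * ((m : ℝ) ^ 2)⁻¹ := by
            rw [div_div_eq_mul_div, div_eq_mul_inv]; ring
          rw [e] at h
          linarith
    refine (Finset.sum_le_sum hle).trans ?_
    rw [Finset.sum_add_distrib, Finset.sum_add_distrib]
    have s1 : ∑ m ∈ Finset.range N, (if m ∈ Finset.range (K + 1) then 2 * D ^ 2 / q ^ 3 else 0) ≤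
        12 * D ^ 2 / q := by
      rw [← Finset.sum_filter, Finset.sum_const, nsmul_eq_mul]
      have hc : ((Finset.filter (fun m => m ∈ Finset.range (K + 1)) (Finset.range N)).card : ℝ) ≤
          6 * q ^ 2 := by
        have : (Finset.filter (fun m => m ∈ Finset.range (K + 1)) (Finset.range N)).card ≤ K + 1 := by
          calc _ ≤ (Finset.range (K + 1)).card := by
                apply Finset.card_le_card
                intro m hm
                exact (Finset.mem_filter.mp hm).2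
            _ = K + 1 := Finset.card_range _
        have h' : ((Finset.filter (fun m => m ∈ Finset.range (K + 1)) (Finset.range N)).card : ℝ) ≤
          (K : ℝ) + 1 := by exact_mod_cast this
        nlinarith
      calc _ ≤ 6 * q ^ 2 * (2 * D ^ 2 / q ^ 3) := mul_le_mul_of_nonneg_right hc (by positivity)
        _ = 12 * D ^ 2 / q := by field_simp; norm_num
    have s2 : ∑ m ∈ Finset.range N, (if m ∈ Finset.Icc a b then 3 * D / q ^ 2 else 0) ≤
        33 * D ^ 2 / q := by
      rw [← Finset.sum_filter, Finset.sum_const, nsmul_eq_mul]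
      have hc : ((Finset.filter (fun m => m ∈ Finset.Icc a b) (Finset.range N)).card : ℝ) ≤
          11 * q := by
        have : (Finset.filter (fun m => m ∈ Finset.Icc a b) (Finset.range N)).card ≤ b + 1 - a := by
          calc _ ≤ (Finset.Icc a b).card := by
                apply Finset.card_le_card
                intro m hm
                exact (Finset.mem_filter.mp hm).2
            _ = b + 1 - a := Nat.card_Icc _ _
        have h' : ((Finset.filter (fun m => m ∈ Finset.Icc a b) (Finset.range N)).card : ℝ) ≤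
          ((b + 1 - a : ℕ) : ℝ) := by exact_mod_cast this
        refine h'.trans ?_
        rcases le_total a (b + 1) with hab | hab
        · rw [Nat.cast_sub hab]
          push_cast
          linarith
        · rw [Nat.sub_eq_zero_of_le hab]
          simp only [Nat.cast_zero]
          positivity
      calc _ ≤ 11 * q * (3 * D / q ^ 2) := mul_le_mul_of_nonneg_right hc (by positivity)
        _ = 33 * D / q := by field_simp; norm_num
        _ ≤ 33 * D ^ 2 / q := by
          apply div_le_div_of_nonneg_right _ hq0.le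
          linarith
    have s3 : ∑ m ∈ Finset.range N,
        (if m ∈ Finset.Ioc K (N + K) then 25 * D ^ 2 * ((m : ℝ) ^ 2)⁻¹ else 0) ≤ 7 * D ^ 2 / q := by
      rw [← Finset.sum_filter]
      have hK0 : K ≠ 0 := by
        intro h
        rw [h] at hK2
        simp only [Nat.cast_zero, zero_add] at hK2
        nlinarith
      have hK4 : 4 * q ^ 2 ≤ K := by nlinarith
      calc _ ≤ ∑ m ∈ Finset.Ioc K (N + K), 25 * D ^ 2 * ((m : ℝ) ^ 2)⁻¹ := by
            apply Finset.sum_le_sum_of_subset_of_nonneg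
            · intro m hm
              exact (Finset.mem_filter.mp hm).2
            · intro m _ _
              positivity
        _ = 25 * D ^ 2 * ∑ m ∈ Finset.Ioc K (N + K), ((m : ℝ) ^ 2)⁻¹ := by rw [Finset.mul_sum]
        _ ≤ 25 * D ^ 2 * ((K : ℝ)⁻¹ - ((N + K : ℕ) : ℝ)⁻¹) := by
            apply mul_le_mul_of_nonneg_left _ (by positivity)
            exact sum_Ioc_inv_sq_le_sub hK0 (by omega)
        _ ≤ 25 * D ^ 2 * (K : ℝ)⁻¹ := by
            apply mul_le_mul_of_nonneg_left _ (by positivity)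
            have : 0 ≤ ((N + K : ℕ) : ℝ)⁻¹ := by positivity
            linarith
        _ ≤ 25 * D ^ 2 * (4 * q ^ 2)⁻¹ := by
            apply mul_le_mul_of_nonneg_left _ (by positivity)
            exact inv_anti₀ (by positivity) hK4
        _ ≤ 7 * D ^ 2 / q := by
            rw [← div_eq_mul_inv, div_le_div_iff₀ (by positivity) hq0]
            have : 0 ≤ D ^ 2 := by positivity
            have h7 : D ^ 2 * q ≤ D ^ 2 * q ^ 2 := mul_le_mul_of_nonneg_left hq2 this
            nlinarith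
    have : 100 * D ^ 2 / q = 12 * D ^ 2 / q + 33 * D ^ 2 / q + 55 * D ^ 2 / q := by ring
    rw [this]
    have h8 : 7 * D ^ 2 / q ≤ 55 * D ^ 2 / q := by
      apply div_le_div_of_nonneg_right _ hq0.le
      nlinarith
    linarith
  exact ⟨summable_of_sum_range_le h0 key, Real.tsum_le_of_sum_range_le h0 key⟩

/-- USM: the sum over `m` at the small end. -/
theorem USM : USM_stmt := by
  refine ⟨200, by norm_num, ?_⟩
  intro σ l l1 l2 y W hσ hσ2 hl hl1 hl2 hy hWdef hDW
  set D : ℝ := l + l1 + l2 with hDdef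
  have hD3 : 3 ≤ D := by linarith
  have hW0 : 0 < W := lt_of_lt_of_le (by positivity) hDW
  set q : ℝ := √(√W) with hq
  have hq4 : W = q ^ 4 := by
    have e1 : q ^ 2 = √W := Real.sq_sqrt (Real.sqrt_nonneg _)
    have e2 : √W ^ 2 = W := Real.sq_sqrt hW0.le
    calc W = √W ^ 2 := e2.symm
      _ = (q ^ 2) ^ 2 := by rw [e1]
      _ = q ^ 4 := by ring
  have hq0' : 0 ≤ q := Real.sqrt_nonneg _
  have hDq : D ^ 2 ≤ q := by
    have : (D ^ 2) ^ 4 ≤ q ^ 4 := by
      rw [← hq4]
      calc (D ^ 2) ^ 4 = D ^ 8 := by ring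
        _ ≤ W := hDW
    exact le_of_pow_le_pow_left₀ (by norm_num) hq0' this
  have hq1 : 1 ≤ q := by nlinarith
  have hl0 : 0 < l := by linarith
  set e' : ℝ := 1 / l ^ 2 with he'def
  have he'0 : 0 ≤ e' := by positivity
  have he'1 : e' ≤ 1 := by
    rw [he'def, div_le_one (by positivity)]
    nlinarith
  set e : ℝ := σ - e' with hedef
  have he0 : 0 ≤ e := by linarith
  have hee : e + e' ≤ 2 := by linarith
  have hLA : ∀ (l' : ℝ) (m : ℤ), LA σ l l' y m = USM_G W e e' (l' ^ 2) ((m : ℝ) ^ 2 / 25) := by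
    intro l' m
    unfold LA Lgm USM_G
    have e1 : (σ - 1 / l ^ 2) * (l ^ 2 / y ^ 2 + l' ^ 2) = W + e * l' ^ 2 := by
      rw [hWdef, hedef]; ring
    have e2 : -(l' ^ 2 / l ^ 2 - (m : ℝ) ^ 2 / 25) = (m : ℝ) ^ 2 / 25 - e' * l' ^ 2 := by
      rw [he'def]; ring
    have e3 : W + e * l' ^ 2 + (l' ^ 2 / l ^ 2 - (m : ℝ) ^ 2 / 25) =
        W + (e + e') * l' ^ 2 - (m : ℝ) ^ 2 / 25 := by
      rw [he'def]; ring
    rw [e1, e2, e3]
  set f : ℤ → ℝ := fun m => |LA σ l l1 y m - LA σ l l2 y m| with hf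
  have hfe : ∀ m : ℤ, f (-m) = f m := by
    intro m
    simp only [hf, hLA, Int.cast_neg, neg_sq]
  have hx1 : 0 ≤ l1 ^ 2 := by positivity
  have hx2 : 0 ≤ l2 ^ 2 := by positivity
  have hx1D : l1 ^ 2 ≤ D ^ 2 := by
    apply pow_le_pow_left₀ (by linarith)
    linarith
  have hx2D : l2 ^ 2 ≤ D ^ 2 := by
    apply pow_le_pow_left₀ (by linarith)
    linarith
  have hdiff : |l1 ^ 2 - l2 ^ 2| ≤ D ^ 2 := by
    rw [abs_le]
    constructor <;> linarith
  obtain ⟨S, B⟩ := USM_nat (q := q) (D := D) hq1 (by linarith) (fun m : ℕ => f m)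
    (fun m => abs_nonneg _)
    (by
      intro m hm
      simp only [hf, hLA, Int.cast_natCast]
      refine USM_r1 hq1 hq4 he0 he'0 hee hx1 hx2 hdiff ?_
      have hm0 : (0 : ℝ) ≤ m := Nat.cast_nonneg m
      have : (m : ℝ) ^ 2 ≤ (5 * (q ^ 2 - q)) ^ 2 := pow_le_pow_left₀ hm0 hm 2
      have h5 : q ^ 2 ≤ q ^ 3 := by
        have : 0 ≤ q ^ 2 := by positivity
        nlinarith
      nlinarith)
    (by
      intro m
      simp only [hf, hLA, Int.cast_natCast]
      exact USM_r2 hq1 hq4 he0 he'0 hee hx1 hx2 hdiff (by linarith) hDq)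
    (by
      intro m hm
      simp only [hf, hLA, Int.cast_natCast]
      refine USM_r3 hq1 hq4 he0 he'0 he'1 hee hx1 hx2 (hx1D.trans hDq) (hx2D.trans hDq) hdiff ?_
      have : (5 * (q ^ 2 + q)) ^ 2 ≤ (m : ℝ) ^ 2 := pow_le_pow_left₀ (by positivity) hm 2
      have h5 : q ≤ q ^ 3 := by
        have : q ^ 3 = q * (q * q) := by ring
        nlinarith [mul_le_mul hq1 hq1 (by norm_num) (by linarith : (0 : ℝ) ≤ q)]
      nlinarith)
  have S2 : Summable (fun n : ℕ => f (-((n : ℤ) + 1))) := by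
    have : (fun n : ℕ => f (-((n : ℤ) + 1))) = fun n : ℕ => (fun m : ℕ => f m) (n + 1) := by
      funext n
      rw [hfe]
      push_cast
      rfl
    rw [this]
    exact (summable_nat_add_iff 1).mpr S
  have HS := HasSum.of_nat_of_neg_add_one (f := f) S.hasSum S2.hasSum
  have hT2 : ∑' n : ℕ, f (-((n : ℤ) + 1)) ≤ ∑' m : ℕ, f m := by
    have h9 : ∑' n : ℕ, f (-((n : ℤ) + 1)) = ∑' n : ℕ, (fun m : ℕ => f m) (n + 1) := by
      apply tsum_congr
      intro n
      rw [hfe]
      push_cast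
      rfl
    rw [h9, S.tsum_eq_zero_add]
    have : 0 ≤ f (0 : ℕ) := abs_nonneg _
    linarith
  refine ⟨HS.summable, ?_⟩
  have : ∑' m : ℤ, |LA σ l l1 y m - LA σ l l2 y m| = ∑' m : ℤ, f m := rfl
  rw [this, HS.tsum_eq]
  have h10 : 200 * D ^ 2 / q = 100 * D ^ 2 / q + 100 * D ^ 2 / q := by ring
  rw [h10]
  linarith

end SF
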