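import Pool.Agent.helper72.SF.SpecT

/-! # Project sf, module st:T1 (helper18): algebra. -/

set_option autoImplicit false

namespace SF

theorem T1_big (x y z : ℝ) (hx : 2 < x) (hy : 2 < y) (hz : x * y / 2 ≤ z) :
    x ^ 2 * y ≤ 2 * (((x ^ 2 - 1) * z - x * y) * (y * z - x)) := by
  have hxy : 0 < x * y := by positivity
  have hQ : x * y ^ 2 / 4 ≤ y * z - x := by nlinarith [mul_pos hxy hxy]
  have hP : x ^ 3 * y / 8 ≤ (x ^ 2 - 1) * z - x * y := by
    have h1 : (x ^ 2 - 3) * z ≤ (x ^ 2 - 1) * z - x * y := by nlinarith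
    have h2 : x ^ 2 / 4 * (x * y / 2) ≤ (x ^ 2 - 3) * z :=
      mul_le_mul (by nlinarith) hz (by positivity) (by nlinarith)
    calc x ^ 3 * y / 8 = x ^ 2 / 4 * (x * y / 2) := by ring
      _ ≤ _ := h2.trans h1
  have h3 : x ^ 3 * y / 8 * (x * y ^ 2 / 4) ≤ ((x ^ 2 - 1) * z - x * y) * (y * z - x) :=
    mul_le_mul hP hQ (by positivity) (le_trans (by positivity) hP)
  have h44 : (4 : ℝ) ≤ x * y := by nlinarith
  have h4 : (16 : ℝ) ≤ (x * y) ^ 2 := by nlinarith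
  have h5 : x ^ 2 * y * 16 ≤ x ^ 2 * y * (x * y) ^ 2 := mul_le_mul_of_nonneg_left h4 (by positivity)
  have h6 : x ^ 3 * y / 8 * (x * y ^ 2 / 4) = x ^ 2 * y * (x * y) ^ 2 / 32 := by ring
  linarith

theorem T1 : T1_stmt := by
  intro κ hκ
  refine ⟨2 + κ, by linarith, ?_⟩
  intro x y z hx hy hz hz' h
  have x0 : 0 < x := by linarith
  have y0 : 0 < y := by linarith
  have z0 : 0 < z := by linarith
  have hPz : ((x ^ 2 - 1) * z - x * y) * z = (x * z - y) ^ 2 + x ^ 2 + κ := by rw [← h]; ring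
  have hQx : (y * z - x) * x = z ^ 2 + y ^ 2 + κ := by rw [← h]; ring
  have hty : (x * z - y) * y = z ^ 2 + x ^ 2 + κ := by rw [← h]; ring
  have hzz : z * (x * y - z) = x ^ 2 + y ^ 2 + κ := by rw [← h]; ring
  have hP : 0 < (x ^ 2 - 1) * z - x * y := by
    have : 0 < ((x ^ 2 - 1) * z - x * y) * z := by rw [hPz]; positivity
    exact pos_of_mul_pos_left this z0.le
  have hQ : 0 < y * z - x := by
    have : 0 < (y * z - x) * x := by rw [hQx]; positivity
    exact pos_of_mul_pos_left this x0.le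
  refine ⟨hP, hQ, ?_⟩
  rcases le_total (x * y / 2) z with hc | hc
  · refine (T1_big x y z hx hy hc).trans ?_
    exact mul_le_mul_of_nonneg_right (by linarith) (by positivity)
  · have h1 : x * y * z ≤ 2 * (x ^ 2 + y ^ 2 + κ) := by nlinarith
    have h2 : (x ^ 2) ^ 2 ≤ ((x * z - y) * y) ^ 2 :=
      pow_le_pow_left₀ (by positivity) (by rw [hty]; nlinarith [sq_nonneg z]) 2
    have h3 : x ^ 4 + x ^ 2 * y ^ 2 ≤ ((x * z - y) ^ 2 + x ^ 2) * y ^ 2 := by nlinarith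
    have h4 : ((x * z - y) ^ 2 + x ^ 2) * y ^ 2 ≤
        ((x ^ 2 - 1) * z - x * y) * (y * z - x) * (x * z) := by
      calc ((x * z - y) ^ 2 + x ^ 2) * y ^ 2
          ≤ ((x * z - y) ^ 2 + x ^ 2 + κ) * (z ^ 2 + y ^ 2 + κ) :=
            mul_le_mul (by linarith) (by nlinarith [sq_nonneg z]) (by positivity) (by positivity)
        _ = (((x ^ 2 - 1) * z - x * y) * z) * ((y * z - x) * x) := by rw [hPz, hQx]
        _ = _ := by ring
    have h5 : x ^ 2 * (x * y * z) ≤ x ^ 2 * (2 * (x ^ 2 + y ^ 2 + κ)) :=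
      mul_le_mul_of_nonneg_left h1 (by positivity)
    have h6 : x ^ 2 * (2 * (x ^ 2 + y ^ 2 + κ)) ≤ (2 + κ) * (x ^ 4 + x ^ 2 * y ^ 2) := by
      have h7 : (2 : ℝ) ≤ x ^ 2 + y ^ 2 := by nlinarith
      have h8 : κ * x ^ 2 * 2 ≤ κ * x ^ 2 * (x ^ 2 + y ^ 2) :=
        mul_le_mul_of_nonneg_left h7 (by positivity)
      nlinarith
    have h9 : (2 + κ) * (x ^ 4 + x ^ 2 * y ^ 2) ≤
        (2 + κ) * (((x ^ 2 - 1) * z - x * y) * (y * z - x) * (x * z)) :=
      mul_le_mul_of_nonneg_left (h3.trans h4) (by linarith)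
    have h10 : x ^ 2 * y * (x * z) ≤
        (2 + κ) * (((x ^ 2 - 1) * z - x * y) * (y * z - x)) * (x * z) := by
      calc x ^ 2 * y * (x * z) = x ^ 2 * (x * y * z) := by ring
        _ ≤ _ := h5.trans (h6.trans h9)
        _ = _ := by ring
    exact le_of_mul_le_mul_right h10 (by positivity)

end SF
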