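import Mathlib
import Pool.Agent.helper68.SF.SpecE

/-! # Project sf, module se:DY (helper18): integral of a `y`-derivative. -/

set_option autoImplicit false

namespace SF

open MeasureTheory Set Filter

theorem DY_open : IsOpen Dm := by
  have h1 : IsOpen {p : ℝ × ℝ | 0 < p.1} := isOpen_lt continuous_const continuous_fst
  have h2 : IsOpen {p : ℝ × ℝ | p.1 < 1 / 2} := isOpen_lt continuous_fst continuous_const
  have h3 : IsOpen {p : ℝ × ℝ | 0 < p.2} := isOpen_lt continuous_const continuous_snd
  have h4 : IsOpen {p : ℝ × ℝ | 1 < p.1 ^ 2 + p.2 ^ 2} :=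
    isOpen_lt continuous_const ((continuous_fst.pow 2).add (continuous_snd.pow 2))
  exact h1.inter (h2.inter (h3.inter h4))

theorem DY_meas : MeasurableSet Dm := DY_open.measurableSet

/-- the slice -/
theorem DY_slice (x y : ℝ) (h0 : 0 < x) (h1 : x < 1 / 2) :
    (x, y) ∈ Dm ↔ y ∈ Ioi (√(1 - x ^ 2)) := by
  have hx : 0 < 1 - x ^ 2 := by nlinarith
  constructor
  · rintro ⟨-, -, hy, h⟩
    simp only at hy h
    rw [mem_Ioi, Real.sqrt_lt' hy]
    linarith
  · intro h
    rw [mem_Ioi] at h
    have hy : 0 < y := (Real.sqrt_pos.mpr hx).trans h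
    refine ⟨h0, h1, hy, ?_⟩
    rw [Real.sqrt_lt' hy] at h
    simp only
    linarith

theorem DY : DY_stmt := by
  intro F F' _ hd hb ht hI
  rw [← integral_indicator DY_meas]
  have hI' : Integrable (Dm.indicator F') (volume : Measure (ℝ × ℝ)) :=
    (integrable_indicator_iff DY_meas).mpr hI
  rw [Measure.volume_eq_prod, integral_prod _ (by rwa [← Measure.volume_eq_prod])]
  refine integral_eq_zero_of_ae (Eventually.of_forall fun x => ?_)
  simp only [Pi.zero_apply]
  by_cases h : 0 < x ∧ x < 1 / 2
  · obtain ⟨h0, h1⟩ := h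
    set a := √(1 - x ^ 2) with ha
    have hx : 0 < 1 - x ^ 2 := by nlinarith
    have hapos : 0 < a := Real.sqrt_pos.mpr hx
    have e : (fun y => Dm.indicator F' (x, y)) = (Ioi a).indicator fun y => F' (x, y) := by
      funext y
      by_cases hy : y ∈ Ioi a
      · rw [indicator_of_mem hy, indicator_of_mem ((DY_slice x y h0 h1).mpr hy)]
      · rw [indicator_of_notMem hy, indicator_of_notMem fun h => hy ((DY_slice x y h0 h1).mp h)]
    rw [e, integral_indicator measurableSet_Ioi]
    by_cases hi : IntegrableOn (fun y => F' (x, y)) (Ioi a)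
    · rw [integral_Ioi_of_hasDerivAt_of_tendsto (f := fun y => F (x, y)) (m := 0)
        (hd x a hapos).continuousAt.continuousWithinAt
        (fun y hy => hd x y (hapos.trans hy)) hi (ht x)]
      have := hb x a hapos (by rw [ha, Real.sq_sqrt hx.le]; ring)
      simp [this]
    · exact integral_undef hi
  · have e : (fun y => Dm.indicator F' (x, y)) = fun _ => 0 := by
      funext y
      exact indicator_of_notMem (fun hp : (x, y) ∈ Dm => h ⟨hp.1, hp.2.1⟩) _
    rw [e, integral_zero]

end SF
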